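import Pool.Agent.Helper85_CYD.StG

/-! # CYD, module DVD -/

set_option autoImplicit false

open Polynomial IsLocalRing

namespace Pool.Agent.CYD

theorem dvd : DvdStmt := by
  intro n g h F
  obtain ⟨Ψ, hΨ⟩ := cyclotomic.dvd_X_pow_sub_one n ℤ
  have hn : 3 ≤ n := F.hn
  have h1 : derivative ((X : ℤ[X]) ^ n - 1) = derivative (cyclotomic n ℤ * Ψ) := by rw [hΨ]
  rw [derivative_sub, derivative_X_pow, derivative_one, sub_zero, derivative_mul] at h1
  refine ⟨Ψ * X, C (n : ℤ) * Ψ - derivative Ψ * X, ?_⟩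
  rw [F.fac]
  have h2 : (X : ℤ[X]) ^ n = cyclotomic n ℤ * Ψ + 1 := by rw [← hΨ]; ring
  have h3 : (X : ℤ[X]) ^ (n - 1) * X = X ^ n := by
    rw [← pow_succ]
    congr 1
    omega
  have h4 : C (n : ℤ) * (cyclotomic n ℤ * Ψ + 1) =
      (derivative (cyclotomic n ℤ) * Ψ + cyclotomic n ℤ * derivative Ψ) * X := by
    rw [← h1, ← h2, ← h3]
    simp only [map_natCast]
    ring
  linear_combination (-1 : ℤ[X]) * h4

end Pool.Agent.CYD
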