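import Pool.Agent.Helper85_CYD.StG

/-! # CYD, module RMU -/

set_option autoImplicit false

open Polynomial IsLocalRing

namespace Pool.Agent.CYD

theorem rmu_aux {L : Type} [Field L] (a b : L) (hab : a * b = 1) (F : L[X]) (N : ℕ)
    (hN : F.natDegree ≤ N) : rootMultiplicity a (reflect N F) = rootMultiplicity b F := by
  have hb0 : b ≠ 0 := right_ne_zero_of_mul_eq_one hab
  have ha0 : a ≠ 0 := left_ne_zero_of_mul_eq_one hab
  by_cases hF : F = 0
  · rw [hF, reflect_zero]
    simp
  obtain ⟨G, hG, hG2⟩ := exists_eq_pow_rootMultiplicity_mul_and_not_dvd F hF b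
  set k := rootMultiplicity b F with hk
  have hG0 : G ≠ 0 := by
    intro h0
    apply hG2
    rw [h0]
    exact dvd_zero _
  have hGb : G.eval b ≠ 0 := by
    intro h0
    exact hG2 (dvd_iff_isRoot.mpr h0)
  have hdeg : F.natDegree = k + G.natDegree := by
    conv_lhs => rw [hG]
    rw [natDegree_mul (pow_ne_zero _ (X_sub_C_ne_zero b)) hG0, natDegree_pow, natDegree_X_sub_C,
      mul_one]
  have hkN : k ≤ N := by omega
  have h1 : reflect N F = reflect k ((X - C b) ^ k) * reflect (N - k) G := by
    conv_lhs => rw [hG, ← Nat.add_sub_cancel' hkN]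
    refine reflect_mul _ _ ?_ ?_
    · rw [natDegree_pow, natDegree_X_sub_C, mul_one]
    · omega
  have h2 : ∀ j : ℕ, reflect j ((X - C b) ^ j) = C ((-b) ^ j) * (X - C a) ^ j := by
    intro j
    induction j with
    | zero => simp
    | succ j ih =>
      rw [pow_succ, reflect_mul _ _ (by rw [natDegree_pow, natDegree_X_sub_C, mul_one])
        (by rw [natDegree_X_sub_C]), ih, reflect_sub, reflect_one_X, reflect_C, pow_one]
      have h3 : (1 : L[X]) - C b * X = C (-b) * (X - C a) := by
        have h4 : C (a * b) = (1 : L[X]) := by rw [hab, C_1]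
        rw [C_mul] at h4
        rw [C_neg, ← h4]
        ring
      rw [h3, pow_succ (-b), C_mul, pow_succ (X - C a)]
      ring
  have h5 : (reflect (N - k) G).eval a ≠ 0 := by
    intro h0
    have hinv : Invertible b := invertibleOfNonzero hb0
    have h6 := eval₂_reflect_mul_pow (RingHom.id L) b (N - k) G (by omega)
    have h7 : ⅟b = a := by
      rw [invOf_eq_inv]
      exact (eq_inv_of_mul_eq_one_left hab).symm
    rw [h7, eval₂_id, eval₂_id, h0, zero_mul] at h6
    exact hGb h6.symm
  have h8 : reflect (N - k) G ≠ 0 := by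
    intro h0
    rw [h0] at h5
    simp at h5
  have h9 : C ((-b) ^ k) ≠ (0 : L[X]) := C_ne_zero.mpr (pow_ne_zero _ (neg_ne_zero.mpr hb0))
  have h10 : (X - C a) ^ k ≠ (0 : L[X]) := pow_ne_zero _ (X_sub_C_ne_zero a)
  rw [h1, h2, rootMultiplicity_mul (mul_ne_zero (mul_ne_zero h9 h10) h8),
    rootMultiplicity_mul (mul_ne_zero h9 h10), rootMultiplicity_C, rootMultiplicity_X_sub_C_pow,
    rootMultiplicity_eq_zero h5]
  omega

theorem rmu : RmuStmt := by
  intro L _ f a b hab
  refine ⟨?_, ?_⟩
  · unfold red
    have h1 : (f.reverse).map (Int.castRingHom L) =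
        reflect f.natDegree (f.map (Int.castRingHom L)) := by
      unfold reverse
      rw [reflect_map]
    rw [h1]
    exact rmu_aux a b hab _ _ natDegree_map_le
  · have hb0 : b ≠ 0 := right_ne_zero_of_mul_eq_one hab
    have hinv : Invertible b := invertibleOfNonzero hb0
    have h6 := eval₂_reverse_mul_pow (Int.castRingHom L) b f
    have h7 : ⅟b = a := by
      rw [invOf_eq_inv]
      exact (eq_inv_of_mul_eq_one_left hab).symm
    rw [h7] at h6
    have h8 : aeval a f.reverse * b ^ f.natDegree = aeval b f := by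
      rw [aeval_def, aeval_def]
      exact h6
    rw [← h8]
    have h9 : a ^ f.natDegree * b ^ f.natDegree = 1 := by rw [← mul_pow, hab, one_pow]
    linear_combination (-aeval a f.reverse) * h9

end Pool.Agent.CYD
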