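import Pool.Agent.Helper85_CYD.StG

/-! # CYD, module SPL -/

set_option autoImplicit false

open Polynomial IsLocalRing

namespace Pool.Agent.CYD

theorem spl : SplStmt := by
  intro K _ _ A l m z hl hm hlm hz
  have hcop : l.Coprime m := (Nat.Prime.coprime_iff_not_dvd hl).mpr hlm
  have hl0 : 0 < l := hl.pos
  obtain ⟨α, hα1, hα2⟩ := Nat.chineseRemainder hcop 0 1
  obtain ⟨β, hβ1, hβ2⟩ := Nat.chineseRemainder hcop 1 0
  obtain ⟨l', rfl⟩ : l ∣ α := (Nat.modEq_zero_iff_dvd).mp hα1
  obtain ⟨m', rfl⟩ : m ∣ β := (Nat.modEq_zero_iff_dvd).mp hβ2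
  have hl' : l'.Coprime m := by
    have h1 := Nat.ModEq.gcd_eq hα2
    rw [Nat.gcd_one_left] at h1
    exact Nat.Coprime.coprime_mul_left h1
  have hm' : m'.Coprime l := by
    have h1 := Nat.ModEq.gcd_eq hβ1
    rw [Nat.gcd_one_left] at h1
    exact Nat.Coprime.coprime_mul_left h1
  have hpos : 0 < l * m := Nat.mul_pos hl0 hm
  have hc : IsPrimitiveRoot (z ^ (l * l')) m := by
    rw [pow_mul]
    exact (hz.pow hpos rfl).pow_of_coprime l' hl'
  have hw : IsPrimitiveRoot (z ^ (m * m')) l := by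
    rw [pow_mul]
    exact (hz.pow hpos (mul_comm l m)).pow_of_coprime m' hm'
  have hzz : z = z ^ (l * l') * z ^ (m * m') := by
    rw [← pow_add]
    have h1 : l * l' + m * m' ≡ 1 [MOD l * m] := by
      rw [← Nat.modEq_and_modEq_iff_modEq_mul hcop]
      constructor
      · have := Nat.ModEq.add hα1 hβ1
        simpa using this
      · have := Nat.ModEq.add hα2 hβ2
        simpa using this
    have h2 : z ^ (l * l' + m * m') = z ^ 1 := by
      rw [pow_eq_pow_mod (l * l' + m * m') hz.pow_eq_one, pow_eq_pow_mod 1 hz.pow_eq_one, h1]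
    rw [h2, pow_one]
  refine ⟨z ^ (l * l'), z ^ (m * m'), hc, hw, hzz, fun hlmem => ?_⟩
  have hl0' : (l : ResidueField A) = 0 := by
    have h1 : residue A (l : A) = 0 := (residue_eq_zero_iff _).mpr hlmem
    rw [map_natCast] at h1
    exact h1
  have : Fact l.Prime := ⟨hl⟩
  have hchar : CharP (ResidueField A) l := (CharP.charP_iff_prime_eq_zero hl).mpr hl0'
  have hw1 : residue A (z ^ (m * m')) = 1 := by
    have h1 : (residue A (z ^ (m * m'))) ^ l = 1 := by
      rw [← map_pow, hw.pow_eq_one, map_one]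
    have h2 : (residue A (z ^ (m * m')) - 1) ^ l = 0 := by
      rw [sub_pow_char, h1, one_pow, sub_self]
    exact sub_eq_zero.mp (pow_eq_zero_iff hl.ne_zero |>.mp h2)
  have hc1 : residue A (z ^ (l * l')) = residue A z := by
    conv_rhs => rw [hzz, map_mul, hw1, mul_one]
  refine ⟨hc1, hw1, ?_⟩
  have hm0 : (m : ResidueField A) ≠ 0 := by
    intro h0
    exact hlm ((CharP.cast_eq_zero_iff (ResidueField A) l m).mp h0)
  have : NeZero (m : ResidueField A) := ⟨hm0⟩
  rw [← isRoot_cyclotomic_iff, ← hc1, ← map_cyclotomic m (residue A)]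
  exact (hc.isRoot_cyclotomic hm).map

end Pool.Agent.CYD
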