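import Pool.Agent.Helper85_CYD.StG

/-! # CYD, module SUM -/

set_option autoImplicit false

open Polynomial IsLocalRing

namespace Pool.Agent.CYD

theorem sum : SumStmt := by
  intro n l m g h F hl hn L _ _ a ha
  have : Fact l.Prime := ⟨hl⟩
  have hsq := F.hs
  rw [hn] at hsq
  have hcop : l.Coprime m := Nat.coprime_of_squarefree_mul hsq
  have hlm : ¬ l ∣ m := (Nat.Prime.coprime_iff_not_dvd hl).mp hcop
  have hm0 : (m : L) ≠ 0 := by
    intro h0
    exact hlm ((CharP.cast_eq_zero_iff L l m).mp h0)
  have : NeZero (m : L) := ⟨hm0⟩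
  have hlodd : l ≠ 2 := by
    intro h2
    have := F.ho
    rw [hn, h2] at this
    exact (Nat.not_odd_iff_even.mpr (even_two_mul m)) this
  have hl3 : 3 ≤ l := by
    have := hl.two_le
    omega
  have hcyc : cyclotomic n L = cyclotomic m L ^ (l - 1) := by
    rw [hn, mul_comm l m]
    exact cyclotomic_mul_prime_eq_pow_of_not_dvd L hlm
  have hroot : (cyclotomic m L).IsRoot a := by
    rw [isRoot_cyclotomic_iff]
    exact ha
  have hder : ¬ (derivative (cyclotomic m L)).IsRoot a := by
    intro h0
    exact (separable_cyclotomic m L).eval₂_derivative_ne_zero (RingHom.id L)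
      (by simpa [eval₂_id] using hroot) (by simpa [eval₂_id] using h0)
  have hc0 : cyclotomic m L ≠ 0 := cyclotomic_ne_zero m L
  have hd0 : derivative (cyclotomic m L) ≠ 0 := by
    intro h0
    apply hder
    rw [h0]
    simp [IsRoot]
  have hk : ((l - 1 : ℕ) : L) ≠ 0 := by
    intro h0
    have := (CharP.cast_eq_zero_iff L l (l - 1)).mp h0
    have h2 := Nat.le_of_dvd (by omega) this
    omega
  have hmain : red L g * red L h = C ((l - 1 : ℕ) : L) * (cyclotomic m L ^ (l - 2)) *
      derivative (cyclotomic m L) := by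
    have h1 : red L g * red L h = derivative (cyclotomic n L) := by
      unfold red
      rw [← Polynomial.map_mul, F.fac, ← derivative_map, map_cyclotomic]
    rw [h1, hcyc, derivative_pow]
    congr 3
  have hne : red L g * red L h ≠ 0 := by
    rw [hmain]
    exact mul_ne_zero (mul_ne_zero (C_ne_zero.mpr hk) (pow_ne_zero _ hc0)) hd0
  refine ⟨left_ne_zero_of_mul hne, ?_⟩
  rw [← rootMultiplicity_mul hne, hmain, rootMultiplicity_mul (hmain ▸ hne),
    rootMultiplicity_mul (left_ne_zero_of_mul (hmain ▸ hne)), rootMultiplicity_C,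
    rootMultiplicity_eq_zero hder]
  have hone : rootMultiplicity a (cyclotomic m L) = 1 := by
    have h1 : 0 < rootMultiplicity a (cyclotomic m L) := (rootMultiplicity_pos hc0).mpr hroot
    have h2 : ¬ 1 < rootMultiplicity a (cyclotomic m L) := by
      rw [one_lt_rootMultiplicity_iff_isRoot hc0]
      exact fun h => hder h.2
    omega
  have hpow : ∀ k : ℕ, rootMultiplicity a (cyclotomic m L ^ k) = k := by
    intro k
    induction k with
    | zero => simp
    | succ k ih =>
      rw [pow_succ, rootMultiplicity_mul (mul_ne_zero (pow_ne_zero _ hc0) hc0), ih, hone]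
  rw [hpow]
  omega

end Pool.Agent.CYD
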